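import Pool.Agent.H75.TT.Abs
import Pool.Agent.H95.TT.Split

/-!
The abstract one-point theorem: if a big tt-category `X` has two jointly conservative geometric
functors to field-like tt-categories, both faithful on compact objects (in the sense that they
detect zero compact objects), then the spectrum of `X` is a point.  If one of the two functors is
not conservative then `X` is not stratified.
-/

open CategoryTheory CategoryTheory.Limits CategoryTheory.Pretriangulated MonoidalCategory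

namespace Pool.Agent.H59.TT

open Pool.Agent.H75.TT Pool.Agent.H95.TT

section basic

variable {X : BigTT.{0}}

lemma whiskerLeft_zero' (A : X.C) {Y Z : X.C} : A ◁ (0 : Y ⟶ Z) = 0 := by
  obtain ⟨_, _⟩ := RigidlyCompactlyGenerated.exact_left A
  exact (tensorLeft A).map_zero Y Z

lemma zero_whiskerRight' (A : X.C) {Y Z : X.C} : (0 : Y ⟶ Z) ▷ A = 0 := by
  obtain ⟨_, _⟩ := RigidlyCompactlyGenerated.exact_right A
  exact (tensorRight A).map_zero Y Z

lemma isZero_tensor_left {A B : X.C} (h : IsZero A) : IsZero (A ⊗ B) := by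
  rw [IsZero.iff_id_eq_zero] at h ⊢
  rw [← MonoidalCategory.id_whiskerRight, h, zero_whiskerRight']

lemma isZero_tensor_right {A B : X.C} (h : IsZero B) : IsZero (A ⊗ B) := by
  rw [IsZero.iff_id_eq_zero] at h ⊢
  rw [← MonoidalCategory.whiskerLeft_id, h, whiskerLeft_zero']

lemma tri_whiskerLeft (A : X.C) {P Q R : X.C} {f : P ⟶ Q} {g : Q ⟶ R} {h : R ⟶ P⟦(1 : ℤ)⟧}
    (hT : Tri f g h) : ∃ h' : A ⊗ R ⟶ (A ⊗ P)⟦(1 : ℤ)⟧, Tri (A ◁ f) (A ◁ g) h' := by
  obtain ⟨_, _⟩ := RigidlyCompactlyGenerated.exact_left A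
  exact ⟨_, Tri.map (tensorLeft A) hT⟩

lemma isCpt_unit : IsCpt (𝟙_ X.C) :=
  (RigidlyCompactlyGenerated.compact_iff_rigid _).2 ⟨inferInstance⟩

lemma isZero_retract {A B : X.C} (i : A ⟶ B) (r : B ⟶ A) (h : i ≫ r = 𝟙 A) (hB : IsZero B) :
    IsZero A := by
  rw [IsZero.iff_id_eq_zero, ← h, hB.eq_of_tgt i 0, zero_comp]

lemma isZero3_of_tri {A B D : X.C} {f : A ⟶ B} {g : B ⟶ D} {h : D ⟶ A⟦(1 : ℤ)⟧}
    (hT : Tri f g h) (hA : IsZero A) (hB : IsZero B) : IsZero D := by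
  rw [hT.isZero3_iff]
  exact ⟨0, hA.eq_of_src _ _, hB.eq_of_src _ _⟩

end basic

section functor

variable {X K : BigTT.{0}} (F : GeomFunctor X K)

attribute [local instance] GeomFunctor.braided

lemma map_whiskerLeft_zero (A : X.C) {Y Z : X.C} {f : Y ⟶ Z} (hf : F.F.map f = 0) :
    F.F.map (A ◁ f) = 0 := by
  rw [Functor.Monoidal.map_whiskerLeft, hf, whiskerLeft_zero', zero_comp, comp_zero]

lemma map_whiskerRight_zero (A : X.C) {Y Z : X.C} {f : Y ⟶ Z} (hf : F.F.map f = 0) :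
    F.F.map (f ▷ A) = 0 := by
  rw [Functor.Monoidal.map_whiskerRight, hf, zero_whiskerRight', zero_comp, comp_zero]

lemma map_isZero' {A : X.C} (h : IsZero A) : IsZero (F.F.obj A) := by
  obtain ⟨_, _⟩ := F.exact
  exact F.F.map_isZero h

lemma isZero_map_tensor_left {A B : X.C} (h : IsZero (F.F.obj A)) : IsZero (F.F.obj (A ⊗ B)) := by
  rw [IsZero.iff_id_eq_zero, ← F.F.map_id] at h ⊢
  rw [← MonoidalCategory.id_whiskerRight]
  exact map_whiskerRight_zero F B h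

lemma isZero_map_tensor_right {A B : X.C} (h : IsZero (F.F.obj B)) :
    IsZero (F.F.obj (A ⊗ B)) := by
  rw [IsZero.iff_id_eq_zero, ← F.F.map_id] at h ⊢
  rw [← MonoidalCategory.whiskerLeft_id]
  exact map_whiskerLeft_zero F A h

lemma not_isZero_map_unit (hK : FieldLike K) : ¬ IsZero (F.F.obj (𝟙_ X.C)) := fun h =>
  hK.1 (h.of_iso (Functor.Monoidal.εIso F.F))

/-- A map out of the unit which is not killed is sent to a split monomorphism. -/
lemma exists_retraction (hK : FieldLike K) {G : X.C} (v : 𝟙_ X.C ⟶ G) (hv : F.F.map v ≠ 0) :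
    ∃ w : F.F.obj G ⟶ F.F.obj (𝟙_ X.C), F.F.map v ≫ w = 𝟙 _ := by
  obtain ⟨w, hw⟩ := hK.2 _ (Functor.LaxMonoidal.ε F.F ≫ F.F.map v) (by
    intro h
    apply hv
    rw [← cancel_epi (Functor.LaxMonoidal.ε F.F), h, comp_zero])
  refine ⟨w ≫ Functor.LaxMonoidal.ε F.F, ?_⟩
  rw [Category.assoc] at hw
  rw [← cancel_epi (Functor.LaxMonoidal.ε F.F), Category.comp_id]
  calc Functor.LaxMonoidal.ε F.F ≫ F.F.map v ≫ w ≫ Functor.LaxMonoidal.ε F.F
      = (Functor.LaxMonoidal.ε F.F ≫ F.F.map v ≫ w) ≫ Functor.LaxMonoidal.ε F.F := by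
        simp only [Category.assoc]
    _ = _ := by rw [hw, Category.id_comp]

/-- If `e ≫ n = 0`, `n` defined on the unit, and `e` is not killed then `n` is killed. -/
lemma map_eq_zero_of_comp (hK : FieldLike K) {A G : X.C} (e : A ⟶ 𝟙_ X.C) (n : 𝟙_ X.C ⟶ G)
    (hen : e ≫ n = 0) (he : F.F.map e ≠ 0) : F.F.map n = 0 := by
  by_contra h
  obtain ⟨w, hw⟩ := exists_retraction F hK n h
  obtain ⟨_, _⟩ := F.exact
  apply he
  have h1 : F.F.map e ≫ F.F.map n = 0 := by rw [← F.F.map_comp, hen, F.F.map_zero]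
  rw [← Category.comp_id (F.F.map e), ← hw, ← Category.assoc, h1, zero_comp]

lemma isZero_of_map_coev {x x' : X.C} [ExactPairing x x'] (h : F.F.map (η_ x x') = 0) :
    IsZero (F.F.obj x) := by
  have h1 := ExactPairing.evaluation_coevaluation x x'
  have h2 : F.F.map (η_ x x' ▷ x ≫ (α_ x x' x).hom ≫ x ◁ ε_ x x') = 0 := by
    rw [F.F.map_comp, map_whiskerRight_zero F x h, zero_comp]
  rw [h1, F.F.map_comp] at h2
  rw [IsZero.iff_id_eq_zero]
  have h3 : F.F.map ((λ_ x).inv ≫ (λ_ x).hom ≫ (ρ_ x).inv ≫ (ρ_ x).hom) = 0 := by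
    rw [F.F.map_comp, F.F.map_comp, F.F.map_comp, ← Category.assoc (F.F.map (λ_ x).hom), h2,
      zero_comp, comp_zero]
  simpa using h3

lemma isZero_of_map_ev {x x' : X.C} [ExactPairing x x'] (h : F.F.map (ε_ x x') = 0) :
    IsZero (F.F.obj x) := by
  have h1 := ExactPairing.evaluation_coevaluation x x'
  have h2 : F.F.map (η_ x x' ▷ x ≫ (α_ x x' x).hom ≫ x ◁ ε_ x x') = 0 := by
    rw [F.F.map_comp, F.F.map_comp, map_whiskerLeft_zero F x h, comp_zero, comp_zero]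
  rw [h1, F.F.map_comp] at h2
  rw [IsZero.iff_id_eq_zero]
  have h3 : F.F.map ((λ_ x).inv ≫ (λ_ x).hom ≫ (ρ_ x).inv ≫ (ρ_ x).hom) = 0 := by
    rw [F.F.map_comp, F.F.map_comp, F.F.map_comp, ← Category.assoc (F.F.map (λ_ x).hom), h2,
      zero_comp, comp_zero]
  simpa using h3

/-- The kernel on compact objects of a geometric functor to a field-like category is prime. -/
lemma isZero_or_of_tensor (hK : FieldLike K) {x y : X.C} (hx : IsCpt x)
    (h : IsZero (F.F.obj (x ⊗ y))) : IsZero (F.F.obj x) ∨ IsZero (F.F.obj y) := by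
  obtain ⟨hr⟩ := (RigidlyCompactlyGenerated.compact_iff_rigid x).1 hx
  by_contra hcon
  rw [not_or] at hcon
  obtain ⟨h1, h2⟩ := hcon
  apply h2
  have h3 : F.F.map (η_ x (HasRightDual.rightDual x)) ≠ 0 := fun h => h1 (isZero_of_map_coev F h)
  obtain ⟨w, hw⟩ := exists_retraction F hK _ h3
  -- `F y` is a retract of `F ((x ⊗ x') ⊗ y)`
  have h4 : IsZero (F.F.obj ((x ⊗ HasRightDual.rightDual x) ⊗ y)) := by
    let e : (x ⊗ HasRightDual.rightDual x) ⊗ y ≅ HasRightDual.rightDual x ⊗ (x ⊗ y) :=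
      whiskerRightIso (β_ x (HasRightDual.rightDual x)) y ≪≫ α_ _ _ _
    exact (isZero_map_tensor_right F (A := HasRightDual.rightDual x) h).of_iso (F.F.mapIso e)
  have h5 : IsZero (F.F.obj (x ⊗ HasRightDual.rightDual x) ⊗ F.F.obj y) :=
    h4.of_iso (Functor.Monoidal.μIso F.F _ _)
  have h6 : IsZero (F.F.obj (𝟙_ X.C) ⊗ F.F.obj y) := by
    refine isZero_retract (F.F.map (η_ x (HasRightDual.rightDual x)) ▷ F.F.obj y)
      (w ▷ F.F.obj y) ?_ h5
    rw [← comp_whiskerRight, hw, id_whiskerRight]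
  exact h6.of_iso ((λ_ (F.F.obj y)).symm ≪≫
    whiskerRightIso (Functor.Monoidal.εIso F.F) (F.F.obj y))

end functor

section main

variable {X K0 K2 : BigTT.{0}} {F0 : GeomFunctor X K0} {F2 : GeomFunctor X K2}

/-- The zero ideal is a prime. -/
def zeroPrime (h : PinchPair X K0 K2 F0 F2) : Spc X.C where
  mem x := IsZero x
  compact hx := isCpt_of_isZero hx
  iso hx e := hx.of_iso e.some.symm
  zero hx := hx
  shift n hx := (shiftFunctor X.C n).map_isZero hx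
  triangle {T} hT h1 h2 := isZero3_of_tri (f := T.mor₁) (g := T.mor₂) (h := T.mor₃) hT h1 h2
  retract r hy := isZero_retract r.some.i r.some.r r.some.retract hy
  ideal _ hy := isZero_tensor_right hy
  ne_top := fun h0 => not_isZero_map_unit F0 h.field0 (map_isZero' F0 h0)
  prime {x y} hx hy hxy := by
    rcases isZero_or_of_tensor F0 h.field0 (x := x) (y := y) hx (map_isZero' F0 hxy) with h1 | h1
    · exact Or.inl (h.nak0 x hx h1)
    · exact Or.inr (h.nak0 y hy h1)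

section cones

variable (P : Spc X.C)

lemma mem_shift_iff {x : X.C} (n : ℤ) : P.mem (x⟦n⟧) ↔ P.mem x :=
  ⟨fun h => P.iso (P.shift (-n) h) ⟨shiftShiftNeg x n⟩, fun h => P.shift n h⟩

lemma mem2_of_tri {A B D : X.C} {f : A ⟶ B} {g : B ⟶ D} {h : D ⟶ A⟦(1 : ℤ)⟧}
    (hT : Tri f g h) (hA : P.mem A) (hD : P.mem D) : P.mem B := by
  have h1 := hT.rot.rot
  have h2 : P.mem (B⟦(1 : ℤ)⟧) := P.triangle h1 hD (P.shift 1 hA)
  exact (mem_shift_iff P 1).1 h2

lemma mem_cone_tr (T : ℕ → X.C) (φ : ∀ k, T k ⟶ T (k + 1))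
    (hcone : ∀ k, ∃ (D : X.C) (g : T (k + 1) ⟶ D) (e : D ⟶ (T k)⟦(1 : ℤ)⟧),
      Tri (φ k) g e ∧ P.mem D) (k : ℕ) :
    ∀ (D : X.C) (g : T k ⟶ D) (e : D ⟶ (T 0)⟦(1 : ℤ)⟧),
      Tri (tr φ 0 k (Nat.zero_le k)) g e → P.mem D := by
  induction k with
  | zero =>
    intro D g e hD
    refine P.zero ?_
    rw [hD.isZero3_iff, tr_self]
    infer_instance
  | succ k ih =>
    intro D g e hD
    obtain ⟨D1, g1, e1, hD1⟩ := exists_tri3 (tr φ 0 k (Nat.zero_le k))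
    obtain ⟨D2, g2, e2, hD2, hmem2⟩ := hcone k
    have hcomp : tr φ 0 k (Nat.zero_le k) ≫ φ k =
        tr φ 0 (k + 1) (Nat.zero_le (k + 1)) := (tr_succ _ _ _ _).symm
    have oct := Triangulated.someOctahedron hcomp hD1 hD2 hD
    exact mem2_of_tri P (f := oct.m₁) (g := oct.m₃) oct.mem (ih D1 g1 e1 hD1) hmem2

lemma mem_of_tr_eq_zero (T : ℕ → X.C) (φ : ∀ k, T k ⟶ T (k + 1))
    (hcone : ∀ k, ∃ (D : X.C) (g : T (k + 1) ⟶ D) (e : D ⟶ (T k)⟦(1 : ℤ)⟧),
      Tri (φ k) g e ∧ P.mem D) (m : ℕ) (h0 : tr φ 0 m (Nat.zero_le m) = 0) :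
    P.mem (T 0) := by
  obtain ⟨D, g, e, hD⟩ := exists_tri3 (tr φ 0 m (Nat.zero_le m))
  have h1 := mem_cone_tr P T φ hcone m D g e hD
  obtain ⟨b, hb⟩ := hD.co1 (𝟙 _) (by rw [h0, Functor.map_zero, comp_zero])
  have h2 : P.mem ((T 0)⟦(1 : ℤ)⟧) := P.retract ⟨⟨b, e, hb.symm⟩⟩ h1
  exact (mem_shift_iff P 1).1 h2

end cones

/-- The tensor powers of an object. -/
noncomputable def tpow (L : X.C) : ℕ → X.C
  | 0 => 𝟙_ X.C
  | n + 1 => tpow L n ⊗ L

/-- The transition maps `L^{⊗n} ⟶ L^{⊗(n+1)}` given by a map out of the unit. -/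
noncomputable def tmap {L : X.C} (n : 𝟙_ X.C ⟶ L) (k : ℕ) : tpow L k ⟶ tpow L (k + 1) :=
  (ρ_ (tpow L k)).inv ≫ tpow L k ◁ n

lemma map_tmap {K : BigTT.{0}} (F : GeomFunctor X K) {L : X.C} (n : 𝟙_ X.C ⟶ L)
    (hn : F.F.map n = 0) (k : ℕ) : F.F.map (tmap n k) = 0 := by
  have h : F.F.map ((ρ_ (tpow L k)).inv ≫ tpow L k ◁ n) = 0 := by
    rw [F.F.map_comp, map_whiskerLeft_zero F _ hn, comp_zero]
  exact h

lemma isCpt_tpow (P : Spc X.C) {A L : X.C} {e : A ⟶ 𝟙_ X.C} {n : 𝟙_ X.C ⟶ L}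
    {d : L ⟶ A⟦(1 : ℤ)⟧} (hT : Tri e n d) (hA : P.mem A) (k : ℕ) : IsCpt (tpow L k) := by
  induction k with
  | zero => exact isCpt_unit
  | succ k ih =>
    obtain ⟨d', hT'⟩ := tri_whiskerLeft (tpow L k) hT
    exact hT'.isCpt3 (P.compact (P.ideal ih hA)) (isCpt_of_iso (ρ_ _).symm ih)

lemma exists_cone_tmap (P : Spc X.C) {A L : X.C} {e : A ⟶ 𝟙_ X.C} {n : 𝟙_ X.C ⟶ L}
    {d : L ⟶ A⟦(1 : ℤ)⟧} (hT : Tri e n d) (hA : P.mem A) (k : ℕ) :
    ∃ (D : X.C) (g : tpow L (k + 1) ⟶ D) (e : D ⟶ (tpow L k)⟦(1 : ℤ)⟧),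
      Tri (tmap n k) g e ∧ P.mem D := by
  obtain ⟨d', hT'⟩ := tri_whiskerLeft (tpow L k) hT
  have hmem : P.mem ((tpow L k ⊗ A)⟦(1 : ℤ)⟧) := P.shift 1 (P.ideal (isCpt_tpow P hT hA k) hA)
  have h1 : Tri ((ρ_ (tpow L k)).inv ≫ tpow L k ◁ n) d'
      (-(tpow L k ◁ e ≫ (ρ_ (tpow L k)).hom)⟦(1 : ℤ)⟧') := by
    refine hT'.rot.of_iso (ρ_ (tpow L k)) (Iso.refl _) (Iso.refl _) ?_ ?_ ?_
    · simp
    · simp
    · simp
  exact ⟨_, _, _, h1, hmem⟩

/-- Primes contain only zero objects. -/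
theorem isZero_of_mem (h : PinchPair X K0 K2 F0 F2) (P : Spc X.C) {x : X.C} (hx : P.mem x) :
    IsZero x := by
  by_contra hx0
  have hxc := P.compact hx
  obtain ⟨⟨x', hr⟩⟩ := (RigidlyCompactlyGenerated.compact_iff_rigid x).1 hxc
  have hx'c : IsCpt x' :=
    (RigidlyCompactlyGenerated.compact_iff_rigid x').2
      ⟨@HasRightDual.mk _ _ _ _ x (BraidedCategory.exactPairing_swap x x')⟩
  have hev0 : F0.F.map (ε_ x x') ≠ 0 := fun h1 => hx0 (h.nak0 x hxc (isZero_of_map_ev F0 h1))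
  have hev2 : F2.F.map (ε_ x x') ≠ 0 := fun h1 => hx0 (h.nak2 x hxc (isZero_of_map_ev F2 h1))
  obtain ⟨L, n, d, hT⟩ := exists_tri3 (ε_ x x')
  have hn0 : F0.F.map n = 0 := map_eq_zero_of_comp F0 h.field0 _ n hT.c12 hev0
  have hn2 : F2.F.map n = 0 := map_eq_zero_of_comp F2 h.field2 _ n hT.c12 hev2
  have hmem : P.mem (x' ⊗ x) := P.ideal hx'c hx
  -- the homotopy colimit of the tensor powers is zero
  obtain ⟨H, i, hH⟩ := exists_isHocolim (tpow L) (tmap n)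
  have hHz : IsZero H := by
    refine h.joint H ?_ ?_
    · obtain ⟨_, _⟩ := F0.exact
      have := F0.coprod ℕ
      exact (hH.map F0.F).isZero fun k => map_tmap F0 n hn0 k
    · obtain ⟨_, _⟩ := F2.exact
      have := F2.coprod ℕ
      exact (hH.map F2.F).isZero fun k => map_tmap F2 n hn2 k
  obtain ⟨m, hm, hm0⟩ := hH.exists_tr_eq_zero (n := 0) (isCpt_tpow P hT hmem 0) (𝟙 (tpow L 0))
    (hHz.eq_of_tgt _ _)
  rw [Category.id_comp] at hm0
  exact P.ne_top (mem_of_tr_eq_zero P (tpow L) (tmap n) (exists_cone_tmap P hT hmem) m hm0)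

theorem eq_zeroPrime (h : PinchPair X K0 K2 F0 F2) (P : Spc X.C) : P = zeroPrime h := by
  refine Spc.ext ?_
  funext x
  exact propext ⟨fun hx => isZero_of_mem h P hx, fun hx => P.zero hx⟩

/-- The one-point theorem. -/
theorem onePoint (h : PinchPair X K0 K2 F0 F2) :
    ∃ P : Spc X.C, (∀ x, P.mem x ↔ IsZero x) ∧ ∀ P' : Spc X.C, P' = P :=
  ⟨zeroPrime h, fun _ => Iff.rfl, fun P' => eq_zeroPrime h P'⟩

lemma isThomason_univ [Subsingleton (Spc X.C)] : IsThomason (Set.univ : Set (Spc X.C)) :=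
  ⟨{Set.univ}, fun Z hZ => by
    rw [Set.mem_singleton_iff] at hZ
    subst hZ
    refine ⟨isClosed_univ, ?_⟩
    rw [Set.compl_univ]
    exact isCompact_empty, by simp⟩

lemma isThomason_empty : IsThomason (∅ : Set (Spc X.C)) :=
  ⟨∅, fun Z hZ => absurd hZ (Set.notMem_empty Z), by simp⟩

theorem weaklyNoetherian (h : PinchPair X K0 K2 F0 F2) : WeaklyNoetherian X.C := by
  intro P
  have : Subsingleton (Spc X.C) :=
    ⟨fun a b => (eq_zeroPrime h a).trans (eq_zeroPrime h b).symm⟩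
  refine ⟨Set.univ, ∅, isThomason_univ, isThomason_empty, ?_⟩
  rw [Set.compl_empty, Set.inter_univ]
  exact Set.eq_univ_of_forall fun Q => Subsingleton.elim _ _

/-- The zero objects form a localizing ideal. -/
lemma isLocIdeal_isZero_map {K : BigTT.{0}} (F : GeomFunctor X K) :
    IsLocIdeal (fun M : X.C => IsZero (F.F.obj M)) where
  iso hx e := hx.of_iso (F.F.mapIso e.some.symm)
  zero hx := map_isZero' F hx
  shift {x} n hx := by
    obtain ⟨_, _⟩ := F.exact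
    exact ((shiftFunctor K.C n).map_isZero hx).of_iso ((F.F.commShiftIso n).app x)
  triangle {T} hT h1 h2 := by
    obtain ⟨_, _⟩ := F.exact
    exact isZero3_of_tri (Tri.map F.F (f := T.mor₁) (g := T.mor₂) (h := T.mor₃) hT) h1 h2
  coprod {J} x hx := by
    obtain ⟨_, _⟩ := F.exact
    have := F.coprod J
    refine IsZero.of_iso ?_ (PreservesCoproduct.iso F.F x)
    rw [IsZero.iff_id_eq_zero]
    refine Sigma.hom_ext _ _ fun j => (hx j).eq_of_src _ _
  ideal hy := isZero_map_tensor_right F hy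

lemma isLocIdeal_isZero : IsLocIdeal (fun M : X.C => IsZero M) where
  iso hx e := hx.of_iso e.some.symm
  zero hx := hx
  shift n hx := (shiftFunctor X.C n).map_isZero hx
  triangle {T} hT h1 h2 := isZero3_of_tri (f := T.mor₁) (g := T.mor₂) (h := T.mor₃) hT h1 h2
  coprod {J} x hx := by
    rw [IsZero.iff_id_eq_zero]
    refine Sigma.hom_ext _ _ fun j => (hx j).eq_of_src _ _
  ideal hy := isZero_tensor_right hy

/-- If `F0` is not conservative then `X` is not stratified. -/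
theorem not_stratified (h : PinchPair X K0 K2 F0 F2) (B : X.C) (hB : ¬ IsZero B)
    (hB0 : IsZero (F0.F.obj B)) : ¬ Stratified X.C := by
  rintro ⟨⟨g, hg⟩, hS⟩
  obtain ⟨-, hmin⟩ := hS g hg
  obtain ⟨-, hmin⟩ := hmin (zeroPrime h)
  obtain ⟨Y, Z, e, f, e', f', -, -, hYZ, hef, hef', ⟨i⟩⟩ := hg (zeroPrime h)
  -- `f = 0`
  have hPY : zeroPrime h ∈ Y ∩ Zᶜ := by rw [← hYZ]; exact Set.mem_singleton _
  have hf : IsZero f := by
    obtain ⟨J, G, hG, hgen⟩ := RigidlyCompactlyGenerated.generated (C := X.C)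
    obtain ⟨a, b, c, -, -, h3⟩ := hef
    refine hgen f fun j n x => h3 (G j) (hG j) ?_ n x
    intro Q _
    rw [eq_zeroPrime h Q]
    exact hPY.1
  have he' : IsZero e' := by
    obtain ⟨a, b, c, -, h2, -⟩ := hef'
    refine h2 _ isLocIdeal_isZero ?_
    rintro s ⟨hs, hsZ⟩
    by_contra hs0
    exact hPY.2 (hsZ hs0)
  have e1 : Nonempty (e ≅ 𝟙_ X.C) := by
    obtain ⟨a, b, c, hT, -, -⟩ := hef
    have : IsIso a := (Tri.isZero3_iff (f := a) (g := b) (h := c) hT).1 hf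
    exact ⟨asIso a⟩
  have f1 : Nonempty (f' ≅ 𝟙_ X.C) := by
    obtain ⟨a, b, c, hT, -, -⟩ := hef'
    have : IsIso b := (Tri.isZero1_iff (f := a) (g := b) (h := c) hT).1 he'
    exact ⟨(asIso b).symm⟩
  obtain ⟨e1⟩ := e1
  obtain ⟨f1⟩ := f1
  have i1 : g (zeroPrime h) ≅ 𝟙_ X.C :=
    i ≪≫ (whiskerRightIso e1 f') ≪≫ λ_ f' ≪≫ f1
  -- everything is in the localizing ideal of `g`
  have hall : ∀ x : X.C, LocId (g (zeroPrime h)) x := by
    intro x L hL hs
    have h1 : L (𝟙_ X.C) := hL.iso (hs _ rfl) ⟨i1⟩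
    exact hL.iso (hL.ideal (x := x) h1) ⟨ρ_ x⟩
  have h1 := hmin (fun M : X.C => IsZero (F0.F.obj M)) (isLocIdeal_isZero_map F0)
    (fun x _ => hall x) ⟨B, hB0, hB⟩ (𝟙_ X.C) (hall _)
  exact not_isZero_map_unit F0 h.field0 h1

end main

end Pool.Agent.H59.TT
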